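import Mathlib
import Pool.Agent.Helper10.OB.Cor

/-!
# OS, block CR: the orbits of the critical points are short, over an algebraically closed field of characteristic `p > d`
-/

set_option autoImplicit false

namespace Pool.Agent.Helper10.OS

open MvPolynomial Pool.Agent.Helper61.TH Pool.Agent.Helper87.FK Pool.Agent.Helper26.OB
open Pool.Agent.Helper10.OB (minimalPeriod_le_card ol_fin ol_infty)

noncomputable section

variable {κ : Type} [Field κ] {k : ℕ} {d : Fin k → ℕ}

/-- the Wronskian in coordinates -/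
def wk (c : Idx d → κ) (a : Fin k) : Polynomial κ :=
  ∑ i : Fin (d a + 1), ∑ j : Fin (d a + 1),
    Polynomial.C (((i : ℕ) - (j : ℕ) : κ) * c ⟨a, (0, i)⟩ * c ⟨a, (1, j)⟩) *
      Polynomial.X ^ ((i : ℕ) + j - 1)

theorem eval_wk (c : Idx d → κ) (a : Fin k) (x : Fin 2 → κ) (h : x 1 = 1) :
    (wk c a).eval (x 0) = wrh c a x := by
  rw [wk, wrh, Polynomial.eval_finsetSum]
  refine Finset.sum_congr rfl fun i _ => ?_
  rw [Polynomial.eval_finsetSum]
  refine Finset.sum_congr rfl fun j _ => ?_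
  rw [h, one_pow, mul_one, Polynomial.eval_mul, Polynomial.eval_C, Polynomial.eval_pow,
    Polynomial.eval_X]

theorem natDegree_wk (c : Idx d → κ) (a : Fin k) : (wk c a).natDegree ≤ 2 * d a - 2 := by
  refine Polynomial.natDegree_sum_le_of_forall_le _ _ fun i _ => ?_
  refine Polynomial.natDegree_sum_le_of_forall_le _ _ fun j _ => ?_
  by_cases h : (i : ℕ) = j
  · rw [h, sub_self, zero_mul, zero_mul, Polynomial.C_0, zero_mul, Polynomial.natDegree_zero]
    exact Nat.zero_le _
  · refine (Polynomial.natDegree_C_mul_X_pow_le _ _).trans ?_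
    have h1 := i.2
    have h2 := j.2
    omega

/-- the coordinate form is the Wronskian -/
theorem wk_eq (c : Idx d → κ) (a : Fin k) : wk c a =
    -Polynomial.wronskian (pl c a 0) (pl c a 1) := by
  have h0 : ∀ i : Fin 2, Polynomial.derivative (pl c a i) =
      ∑ j : Fin (d a + 1), Polynomial.C (((j : ℕ) : κ) * c ⟨a, (i, j)⟩) *
        Polynomial.X ^ ((j : ℕ) - 1) := by
    intro i
    rw [pl, Polynomial.derivative_sum]
    refine Finset.sum_congr rfl fun j _ => ?_
    rw [Polynomial.derivative_C_mul_X_pow, mul_comm (c _)]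
  rw [Polynomial.wronskian, h0, h0, wk, neg_sub]
  rw [pl, pl, Finset.sum_mul_sum, Finset.sum_mul_sum, ← Finset.sum_sub_distrib]
  refine Finset.sum_congr rfl fun i _ => ?_
  rw [← Finset.sum_sub_distrib]
  refine Finset.sum_congr rfl fun j _ => ?_
  rcases Nat.eq_zero_or_pos (i : ℕ) with hi | hi
  · rcases Nat.eq_zero_or_pos (j : ℕ) with hj | hj
    · rw [hi, hj]
      simp
    · obtain ⟨m, hm⟩ : ∃ m, (j : ℕ) = m + 1 := ⟨(j : ℕ) - 1, by omega⟩
      rw [hi, hm]
      simp only [Nat.cast_zero, zero_sub, zero_mul, Polynomial.C_0, Nat.zero_add,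
        Nat.add_sub_cancel, pow_zero, mul_one, Polynomial.C_mul, Polynomial.C_neg]
      ring
  · obtain ⟨n, hn⟩ : ∃ n, (i : ℕ) = n + 1 := ⟨(i : ℕ) - 1, by omega⟩
    rcases Nat.eq_zero_or_pos (j : ℕ) with hj | hj
    · rw [hj, hn]
      simp only [Nat.cast_zero, sub_zero, zero_mul, Polynomial.C_0, Nat.add_zero,
        Nat.add_sub_cancel, pow_zero, mul_one, Polynomial.C_mul]
      ring
    · obtain ⟨m, hm⟩ : ∃ m, (j : ℕ) = m + 1 := ⟨(j : ℕ) - 1, by omega⟩
      have h1 : n + 1 + (m + 1) - 1 = n + 1 + m := by omega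
      rw [hn, hm, h1]
      simp only [Nat.add_sub_cancel, Polynomial.C_mul, Polynomial.C_sub, pow_add, pow_one]
      ring

/-- the form at a vector -/
theorem ev_form (c : Idx d → κ) (a : Fin k) (x : Fin 2 → κ) (i : Fin 2) :
    ev (form c a) x i = ∑ j : Fin (d a + 1), c ⟨a, (i, j)⟩ * x 0 ^ (j : ℕ) * x 1 ^ (d a - j) := by
  unfold ev form
  rw [map_sum]
  refine Finset.sum_congr rfl fun j _ => ?_
  simp

theorem wk_ne_zero [IsAlgClosed κ] (p : ℕ) [Fact p.Prime] [CharP κ p] (c : Idx d → κ) (a : Fin k)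
    (hd : 1 ≤ d a) (hp : d a < p) (hgood : ∀ x : Fin 2 → κ, x ≠ 0 → ev (form c a) x ≠ 0) :
    wk c a ≠ 0 := by
  intro h0
  rw [wk_eq, neg_eq_zero] at h0
  have hev : ∀ (i : Fin 2) (z : κ), (pl c a i).eval z =
      ∑ j : Fin (d a + 1), c ⟨a, (i, j)⟩ * z ^ (j : ℕ) := by
    intro i z
    rw [pl, Polynomial.eval_finsetSum]
    refine Finset.sum_congr rfl fun j _ => ?_
    simp
  have hcop : IsCoprime (pl c a 0) (pl c a 1) := by
    rw [Polynomial.isCoprime_iff_aeval_ne_zero_of_isAlgClosed κ κ]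
    intro z
    by_contra hcon
    push Not at hcon
    have hne : (![z, 1] : Fin 2 → κ) ≠ 0 := by
      intro h
      have h2 := congrFun h 1
      simp at h2
    refine hgood ![z, 1] hne ?_
    funext i
    have h2 : (pl c a i).eval z = 0 := by
      have h3 := hcon.1
      have h4 := hcon.2
      rw [Polynomial.coe_aeval_eq_eval] at h3 h4
      fin_cases i
      · exact h3
      · exact h4
    rw [hev] at h2
    rw [ev_form]
    simp only [Matrix.cons_val_zero, Matrix.cons_val_one, one_pow, mul_one, Pi.zero_apply]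
    exact h2
  obtain ⟨h1, h2⟩ := (hcop.wronskian_eq_zero_iff).1 h0
  have hco : ∀ i : Fin 2, c ⟨a, (i, Fin.last (d a))⟩ = 0 := by
    intro i
    have h3 : Polynomial.derivative (pl c a i) = 0 := by
      fin_cases i
      · exact h1
      · exact h2
    have h4 : (Polynomial.derivative (pl c a i)).coeff (d a - 1) = 0 := by rw [h3, Polynomial.coeff_zero]
    rw [Polynomial.coeff_derivative] at h4
    have h5 : d a - 1 + 1 = d a := by omega
    have h6 : (((d a - 1 : ℕ) : κ) + 1) = ((d a : ℕ) : κ) := by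
      exact_mod_cast congrArg (Nat.cast : ℕ → κ) h5
    rw [h5, h6] at h4
    have h7 : ((d a : ℕ) : κ) ≠ 0 := by
      rw [Ne, CharP.cast_eq_zero_iff κ p]
      intro h
      exact absurd (Nat.le_of_dvd hd h) (not_le.2 hp)
    have h8 := (mul_eq_zero.1 h4).resolve_right h7
    rw [pl, Polynomial.finsetSum_coeff] at h8
    rw [Finset.sum_eq_single (Fin.last (d a))] at h8
    · simpa using h8
    · intro j _ hj
      rw [Polynomial.coeff_C_mul, Polynomial.coeff_X_pow, if_neg, mul_zero]
      intro h6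
      exact hj (Fin.ext (by rw [Fin.val_last]; exact h6.symm))
    · intro h6
      exact absurd (Finset.mem_univ _) h6
  have hne : (![1, 0] : Fin 2 → κ) ≠ 0 := by
    intro h
    have h2 := congrFun h 0
    simp at h2
  refine hgood ![1, 0] hne ?_
  funext i
  rw [ev_form]
  simp only [Matrix.cons_val_zero, Matrix.cons_val_one, one_pow, mul_one, Pi.zero_apply]
  refine Finset.sum_eq_zero fun j _ => ?_
  by_cases hj : j = Fin.last (d a)
  · rw [hj, hco, zero_mul]
  · have h4 : d a - (j : ℕ) ≠ 0 := by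
      have h5 := j.2
      have h6 : (j : ℕ) ≠ d a := fun h7 => hj (Fin.ext (by rw [Fin.val_last]; exact h7))
      omega
    rw [zero_pow h4, mul_zero]

/-- scaling of the Wronskian -/
theorem wrh_smul' (c : Idx d → κ) (a : Fin k) (l : κ) (x : Fin 2 → κ) :
    wrh c a (fun i => l * x i) = l ^ (2 * d a - 2) * wrh c a x := by
  rw [wrh, wrh, Finset.mul_sum]
  refine Finset.sum_congr rfl fun i _ => ?_
  rw [Finset.mul_sum]
  refine Finset.sum_congr rfl fun j _ => ?_
  by_cases h : (i : ℕ) = j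
  · rw [h, sub_self]
    ring
  · have h1 := i.2
    have h2 := j.2
    have h3 : 2 * d a - 2 = ((i : ℕ) + j - 1) + (2 * d a - 1 - i - j) := by omega
    rw [h3, mul_pow, mul_pow, pow_add]
    ring

/-- in degree one the Wronskian is a constant -/
theorem wrh_const (c : Idx d → κ) (a : Fin k) (h1 : d a = 1) (x y : Fin 2 → κ) : wrh c a x = wrh c a y := by
  rw [wrh, wrh]
  refine Finset.sum_congr rfl fun i _ => Finset.sum_congr rfl fun j _ => ?_
  by_cases h : (i : ℕ) = j
  · rw [h, sub_self]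
    ring
  · have h2 := i.2
    have h3 := j.2
    have h4 : (i : ℕ) + j - 1 = 0 := by omega
    have h5 : 2 * d a - 1 - (i : ℕ) - j = 0 := by omega
    rw [h4, h5]
    simp only [pow_zero]

/-- **CR**: the orbits of the critical points are short -/
theorem crS {κ : Type} [Field κ] [IsAlgClosed κ] (p : ℕ) [Fact p.Prime] [CharP κ p] (σ : κ →+* κ) {k : ℕ}
    {d : Fin k → ℕ} (c : Idx d → κ) (hc : ∀ q, σ (c q) = c q) (a : Fin k) (hd1 : 1 ≤ d a) (hp : d a < p)
    (hgood : ∀ x : Fin 2 → κ, x ≠ 0 → ev (form c a) x ≠ 0) (x : Fin 2 → κ) (hx : x ≠ 0) (hw : wrh c a x = 0) :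
    1 ≤ ol σ x ∧ ol σ x ≤ 2 * d a - 2 := by
  classical
  have hW := wk_ne_zero p c a hd1 hp hgood
  by_cases hx1 : x 1 = 0
  · rw [ol_infty _ hx1]
    refine ⟨le_rfl, ?_⟩
    by_contra hcon
    have h1 : d a = 1 := by omega
    have h2 := eval_wk c a ![0, 1] (by simp)
    rw [wrh_const c a h1 ![0, 1] x, hw] at h2
    have h3 : (wk c a).natDegree = 0 := by
      have := natDegree_wk c a
      omega
    rw [Polynomial.eq_C_of_natDegree_eq_zero h3, Polynomial.eval_C] at h2
    apply hW
    rw [Polynomial.eq_C_of_natDegree_eq_zero h3, h2, Polynomial.C_0]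
  · rw [ol_fin _ hx1]
    have hz : x 0 / x 1 ∈ (wk c a).roots.toFinset := by
      rw [Multiset.mem_toFinset, Polynomial.mem_roots hW, Polynomial.IsRoot.def]
      have h3 := eval_wk c a (fun i => (x 1)⁻¹ * x i) (inv_mul_cancel₀ hx1)
      rw [wrh_smul', hw, mul_zero] at h3
      rw [div_eq_inv_mul]
      exact h3
    have hS : ∀ y ∈ (wk c a).roots.toFinset, σ y ∈ (wk c a).roots.toFinset := by
      intro y hy
      rw [Multiset.mem_toFinset, Polynomial.mem_roots hW, Polynomial.IsRoot.def] at hy ⊢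
      have h3 : (wk c a).map σ = wk c a := by
        rw [wk, Polynomial.map_sum]
        refine Finset.sum_congr rfl fun i _ => ?_
        rw [Polynomial.map_sum]
        refine Finset.sum_congr rfl fun j _ => ?_
        have h5 : σ (((i : ℕ) - (j : ℕ) : κ) * c ⟨a, (0, i)⟩ * c ⟨a, (1, j)⟩) =
            ((i : ℕ) - (j : ℕ) : κ) * c ⟨a, (0, i)⟩ * c ⟨a, (1, j)⟩ := by
          rw [map_mul, map_mul, map_sub, map_natCast, map_natCast, hc, hc]
        rw [Polynomial.map_mul, Polynomial.map_C, Polynomial.map_pow, Polynomial.map_X, h5]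
      have h4 := congrArg σ hy
      rw [map_zero, ← Polynomial.eval_map_apply, h3] at h4
      exact h4
    obtain ⟨h3, h4⟩ := minimalPeriod_le_card σ σ.injective _ hS _ hz
    exact ⟨h3, h4.trans ((Multiset.toFinset_card_le _).trans ((Polynomial.card_roots' _).trans (natDegree_wk c a)))⟩

end

end Pool.Agent.Helper10.OS
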