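import Mathlib

/-!
# OS: the Nullstellensatz over a subfield of `ℂ`
-/

set_option autoImplicit false

namespace Pool.Agent.Helper10.OS

open MvPolynomial

noncomputable section

/-- **NS**: Nullstellensatz over the subfield `A` (in fact any subfield) -/
theorem nsA (A : Subfield ℂ) (hA : ∀ z : ℂ, IsAlgebraic A z → z ∈ A) {ι : Type} [Finite ι]
    (S : Set (MvPolynomial ι ℂ)) (hS : ∀ g ∈ S, ∀ s, coeff s g ∈ A)
    (h0 : ∀ x : ι → ℂ, ∃ g ∈ S, eval x g ≠ 0) :
    ∃ (Q : Finset (MvPolynomial ι ℂ)) (U : MvPolynomial ι ℂ → MvPolynomial ι ℂ), (∀ g ∈ Q, g ∈ S) ∧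
      (∀ g s, coeff s (U g) ∈ A) ∧ ∑ g ∈ Q, U g * g = 1 := by
  classical
  set f : A →+* ℂ := A.subtype with hf
  have hfi : Function.Injective f := A.subtype.injective
  have hmi : Function.Injective (map f : MvPolynomial ι A →+* MvPolynomial ι ℂ) := map_injective f hfi
  set T : Set (MvPolynomial ι A) := {g | map f g ∈ S} with hT
  have hlift : ∀ g ∈ S, ∃ g' : MvPolynomial ι A, map f g' = g := by
    intro g hg
    have : g ∈ Set.range (map f : MvPolynomial ι A →+* MvPolynomial ι ℂ) := by
      rw [mem_range_map_iff_coeffs_subset]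
      intro c hc
      rw [Finset.mem_coe, mem_coeffs_iff] at hc
      obtain ⟨s, _, rfl⟩ := hc
      exact ⟨⟨coeff s g, hS g hg s⟩, rfl⟩
    exact this
  have htop : Ideal.span T = ⊤ := by
    rw [← Ideal.radical_eq_top, ← vanishingIdeal_zeroLocus_eq_radical (K := ℂ), eq_top_iff]
    intro q _
    rw [mem_vanishingIdeal_iff]
    intro x hx
    exfalso
    obtain ⟨g, hg, hne⟩ := h0 x
    obtain ⟨g', rfl⟩ := hlift g hg
    have := (mem_zeroLocus_iff.1 hx) g' (Ideal.subset_span hg)
    apply hne
    rw [eval_map]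
    exact this
  have h1 : (1 : MvPolynomial ι A) ∈ Submodule.span (MvPolynomial ι A) T := by
    have : (1 : MvPolynomial ι A) ∈ Ideal.span T := by rw [htop]; trivial
    exact this
  rw [Submodule.mem_span_set] at h1
  obtain ⟨c, hc, hsum⟩ := h1
  refine ⟨c.support.image (map f), fun g => if h : ∃ g' : MvPolynomial ι A, map f g' = g then
    map f (c h.choose) else 0, ?_, ?_, ?_⟩
  · intro g hg
    obtain ⟨g', hg', rfl⟩ := Finset.mem_image.1 hg
    exact hc hg'
  · intro g s
    by_cases h : ∃ g' : MvPolynomial ι A, map f g' = g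
    · simp only [h, dite_true, coeff_map]
      exact (coeff s (c h.choose)).2
    · simp only [h, dite_false, coeff_zero]
      exact A.zero_mem
  · rw [Finset.sum_image (fun a _ b _ h => hmi h)]
    have : ∀ g' ∈ c.support, (if h : ∃ g'' : MvPolynomial ι A, map f g'' = map f g' then
        map f (c h.choose) else 0) * map f g' = map f (c g' * g') := by
      intro g' _
      have h : ∃ g'' : MvPolynomial ι A, map f g'' = map f g' := ⟨g', rfl⟩
      rw [dif_pos h, hmi h.choose_spec, map_mul]
    rw [Finset.sum_congr rfl this, ← map_sum]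
    have h2 : ∑ g' ∈ c.support, c g' * g' = 1 := by
      have := hsum
      rw [Finsupp.sum] at this
      simpa [smul_eq_mul] using this
    rw [h2, map_one]

end

end Pool.Agent.Helper10.OS
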