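import Mathlib
import Pool.Agent.Helper10.OB.Cor

/-!
# OS: towers. Degrees along the orbit of a triangular map
-/

set_option autoImplicit false

namespace Pool.Agent.Helper10.OS

open Pool.Agent.Helper10.OB (minimalPeriod_le_card)

noncomputable section

section one

open Polynomial

variable {κ : Type*} [Field κ]

theorem eval_iter (ψ : κ →+* κ) (q : κ[X]) (hq : q.map ψ = q) (n : ℕ) (x : κ) :
    q.eval (ψ^[n] x) = ψ^[n] (q.eval x) := by
  induction n with
  | zero => rfl
  | succ n ih =>
    rw [Function.iterate_succ_apply', Function.iterate_succ_apply', ← ih]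
    conv_lhs => rw [← hq]
    rw [eval_map_apply]

/-- the degree of the image -/
theorem period_eval (ψ : κ →+* κ) (q : κ[X]) (hq : q.map ψ = q) (h1 : 1 ≤ q.natDegree) {l : ℕ} (hl : l.Prime)
    (hlt : q.natDegree < l) (w : κ) (h : l ∣ Function.minimalPeriod ψ w) :
    l ∣ Function.minimalPeriod ψ (q.eval w) := by
  classical
  set L := Function.minimalPeriod ψ (q.eval w) with hL
  rcases Nat.eq_zero_or_pos L with h0 | h0
  · rw [h0]
    exact dvd_zero l
  · set g : κ[X] := q - C (q.eval w) with hg
    have hg0 : g ≠ 0 := by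
      intro h2
      have h3 : q = C (q.eval w) := sub_eq_zero.1 h2
      rw [h3, natDegree_C] at h1
      omega
    have hper : ψ^[L] (q.eval w) = q.eval w := Function.isPeriodicPt_minimalPeriod ψ (q.eval w)
    have hS : ∀ x ∈ g.roots.toFinset, ψ^[L] x ∈ g.roots.toFinset := by
      intro x hx
      rw [Multiset.mem_toFinset, mem_roots hg0, IsRoot.def, hg, eval_sub, eval_C, sub_eq_zero] at hx ⊢
      rw [eval_iter ψ q hq, hx, hper]
    have hw : w ∈ g.roots.toFinset := by
      rw [Multiset.mem_toFinset, mem_roots hg0, IsRoot.def, hg, eval_sub, eval_C, sub_self]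
    obtain ⟨h2, h3⟩ := minimalPeriod_le_card (ψ^[L]) (ψ.injective.iterate L) _ hS w hw
    have h4 : g.roots.toFinset.card ≤ q.natDegree := by
      refine (Multiset.toFinset_card_le _).trans ((card_roots' g).trans ?_)
      rw [hg]
      exact (natDegree_sub_C).le
    have h5 : ψ^[L * Function.minimalPeriod (ψ^[L]) w] w = w := by
      rw [Function.iterate_mul]
      exact Function.isPeriodicPt_minimalPeriod _ _
    have h6 : Function.minimalPeriod ψ w ∣ L * Function.minimalPeriod (ψ^[L]) w :=
      Function.IsPeriodicPt.minimalPeriod_dvd h5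
    rcases (Nat.Prime.dvd_mul hl).1 (h.trans h6) with h7 | h7
    · exact h7
    · have := Nat.le_of_dvd h2 h7
      omega

/-- zeros have small degree -/
theorem period_root (ψ : κ →+* κ) (q : κ[X]) (hq : q.map ψ = q) (h0 : q ≠ 0) {l : ℕ}
    (hlt : q.natDegree < l) (w : κ) (hw : q.eval w = 0) : ¬ l ∣ Function.minimalPeriod ψ w := by
  classical
  have hS : ∀ x ∈ q.roots.toFinset, ψ x ∈ q.roots.toFinset := by
    intro x hx
    rw [Multiset.mem_toFinset, mem_roots h0, IsRoot.def] at hx ⊢
    have h1 := eval_iter ψ q hq 1 x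
    simp only [Function.iterate_one] at h1
    rw [h1, hx, map_zero]
  have hw' : w ∈ q.roots.toFinset := by
    rw [Multiset.mem_toFinset, mem_roots h0, IsRoot.def, hw]
  obtain ⟨h2, h3⟩ := minimalPeriod_le_card ψ ψ.injective _ hS w hw'
  have h4 : q.roots.toFinset.card ≤ q.natDegree := (Multiset.toFinset_card_le _).trans (card_roots' q)
  intro h
  have := Nat.le_of_dvd h2 h
  omega

end one

section many

open MvPolynomial

variable {κ : Type*} [Field κ] {ι : Type*}

/-- values depend only on the variables which occur -/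
theorem eval_congr (P : MvPolynomial ι κ) (y z : ι → κ) (h : ∀ s ∈ P.support, ∀ v, s v ≠ 0 → y v = z v) :
    eval y P = eval z P := by
  classical
  rw [eval_eq, eval_eq]
  refine Finset.sum_congr rfl fun s hs => ?_
  congr 1
  refine Finset.prod_congr rfl fun v hv => ?_
  rw [h s hs v (Finsupp.mem_support_iff.1 hv)]

theorem map_eq_self (σ : κ →+* κ) (P : MvPolynomial ι κ) (hP : ∀ s, σ (coeff s P) = coeff s P) : map σ P = P := by
  ext s
  rw [coeff_map, hP]

theorem eval_iterI (σ : κ →+* κ) (P : MvPolynomial ι κ) (hP : ∀ s, σ (coeff s P) = coeff s P) (n : ℕ)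
    (y : ι → κ) : eval (fun v => σ^[n] (y v)) P = σ^[n] (eval y P) := by
  induction n with
  | zero => rfl
  | succ n ih =>
    rw [Function.iterate_succ_apply', ← ih]
    conv_lhs => rw [← map_eq_self σ P hP]
    rw [eval_map]
    simp only [Function.iterate_succ_apply']
    have h1 := eval₂_comp_left σ (RingHom.id κ) (fun v => σ^[n] (y v)) P
    rw [RingHom.comp_id] at h1
    exact h1.symm

/-- the polynomial in the variable `r` -/
def one (g : ι → Polynomial κ) (P : MvPolynomial ι κ) : Polynomial κ := eval₂ Polynomial.C g P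

theorem one_derivative [DecidableEq ι] (g : ι → Polynomial κ) (r : ι) (hr : g r = Polynomial.X)
    (hg : ∀ v, v ≠ r → Polynomial.derivative (g v) = 0) (P : MvPolynomial ι κ) :
    Polynomial.derivative (one g P) = one g (pderiv r P) := by
  unfold one
  induction P using MvPolynomial.induction_on with
  | C a => simp
  | add p q hp hq => simp only [eval₂_add, hp, hq, map_add]
  | mul_X p v hp =>
    rw [eval₂_mul, eval₂_X, Polynomial.derivative_mul, hp, Derivation.leibniz, pderiv_X, smul_eq_mul, smul_eq_mul,
      eval₂_add, eval₂_mul, eval₂_mul, eval₂_X]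
    by_cases h : v = r
    · subst h
      rw [hr, Polynomial.derivative_X, Pi.single_eq_same, eval₂_one]
      ring
    · rw [hg v h, Pi.single_eq_of_ne h, eval₂_zero]
      ring

theorem one_eval (g : ι → Polynomial κ) (P : MvPolynomial ι κ) (x : κ) :
    (one g P).eval x = eval (fun v => (g v).eval x) P := by
  unfold one
  rw [← Polynomial.coe_evalRingHom, hom_eval₂]
  have h1 : (Polynomial.evalRingHom x).comp Polynomial.C = RingHom.id κ := by
    ext a
    simp
  rw [h1]
  rfl

theorem one_map (ψ : κ →+* κ) (g : ι → Polynomial κ) (hg : ∀ v, (g v).map ψ = g v) (P : MvPolynomial ι κ)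
    (hP : ∀ s, ψ (coeff s P) = coeff s P) : (one g P).map ψ = one g P := by
  unfold one
  conv_rhs => rw [← map_eq_self ψ P hP]
  rw [← Polynomial.coe_mapRingHom, hom_eval₂, eval₂_map]
  congr 1
  · ext a
    simp
  · funext v
    exact hg v

/-- degree and leading coefficient -/
theorem one_natDegree (y : ι → κ) (r : ι) (g : ι → Polynomial κ) (hr : g r = Polynomial.X)
    (hg : ∀ v, v ≠ r → g v = Polynomial.C (y v)) (P : MvPolynomial ι κ) (e : ℕ)
    (hP : ∀ s ∈ P.support, s r ≤ e ∧ (s r = e → s = Finsupp.single r e))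
    (ha : coeff (Finsupp.single r e) P ≠ 0) : (one g P).natDegree = e ∧ (one g P).coeff e ≠ 0 := by
  classical
  have h1 : one g P = ∑ s ∈ P.support, Polynomial.C (coeff s P * ∏ v ∈ s.support.erase r, y v ^ s v) *
      Polynomial.X ^ s r := by
    unfold one
    rw [eval₂_eq]
    refine Finset.sum_congr rfl fun s _ => ?_
    rw [Polynomial.C_mul, mul_assoc]
    congr 1
    by_cases h : r ∈ s.support
    · rw [← Finset.mul_prod_erase _ _ h, hr, mul_comm]
      congr 1
      rw [map_prod]
      refine Finset.prod_congr rfl fun v hv => ?_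
      rw [hg v (Finset.ne_of_mem_erase hv), Polynomial.C_pow]
    · rw [Finsupp.notMem_support_iff.1 h, pow_zero, mul_one, Finset.erase_eq_of_notMem h, map_prod]
      refine Finset.prod_congr rfl fun v hv => ?_
      rw [hg v (fun h' => h (h' ▸ hv)), Polynomial.C_pow]
  have h2 : (one g P).coeff e = coeff (Finsupp.single r e) P := by
    rw [h1, Polynomial.finsetSum_coeff]
    rw [Finset.sum_eq_single (Finsupp.single r e)]
    · rw [Polynomial.coeff_C_mul, Polynomial.coeff_X_pow, Finsupp.single_eq_same, if_pos rfl, mul_one]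
      have h3 : (Finsupp.single r e).support.erase r = ∅ := by
        refine Finset.eq_empty_of_forall_notMem fun v hv => ?_
        have h4 := Finset.mem_of_mem_erase hv
        have h5 := Finsupp.support_single_subset h4
        exact Finset.ne_of_mem_erase hv (Finset.mem_singleton.1 h5)
      rw [h3, Finset.prod_empty, mul_one]
    · intro s hs hne
      rw [Polynomial.coeff_C_mul, Polynomial.coeff_X_pow, if_neg, mul_zero]
      intro h3
      exact hne ((hP s hs).2 h3.symm)
    · intro h3
      exact absurd (mem_support_iff.2 ha) h3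
  have h3 : (one g P).natDegree ≤ e := by
    rw [h1]
    refine Polynomial.natDegree_sum_le_of_forall_le _ _ fun s hs => ?_
    exact (Polynomial.natDegree_C_mul_X_pow_le _ _).trans (hP s hs).1
  rw [← h2] at ha
  exact ⟨le_antisymm h3 (Polynomial.le_natDegree_of_ne_zero ha), ha⟩

end many

end

end Pool.Agent.Helper10.OS
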