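import Pool.Agent.Helper26.OS.Defs
import Pool.Agent.Helper10.OS.Tow

/-!
# OS: towers. Orbits of a triangular map over a field with an endomorphism
-/

set_option autoImplicit false

namespace Pool.Agent.Helper10.OS

open MvPolynomial
open Pool.Agent.Helper26.OS (evI jacI)

noncomputable section

variable {κ : Type} [Field κ] {m n : ℕ}

/-- the variable `v` is below `u_r` -/
def below (r : Fin n) : Fin m ⊕ Fin n → Prop
  | Sum.inl _ => True
  | Sum.inr j => j < r

theorem one_congr {ι : Type} (g g' : ι → Polynomial κ) (P : MvPolynomial ι κ)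
    (h : ∀ s ∈ P.support, ∀ v, s v ≠ 0 → g v = g' v) : one g P = one g' P := by
  classical
  unfold one
  rw [eval₂_eq, eval₂_eq]
  refine Finset.sum_congr rfl fun s hs => ?_
  congr 1
  refine Finset.prod_congr rfl fun v hv => ?_
  rw [h s hs v (Finsupp.mem_support_iff.1 hv)]

section orbit

variable (σ : κ →+* κ) (G : Fin m ⊕ Fin n → MvPolynomial (Fin m ⊕ Fin n) κ)
  (hG : ∀ v s, σ (coeff s (G v)) = coeff s (G v)) (e : Fin n → ℕ)
  (h1 : ∀ i, ∀ s ∈ (G (Sum.inl i)).support, ∀ j, s (Sum.inr j) = 0)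
  (h2 : ∀ r, ∀ s ∈ (G (Sum.inr r)).support, (∀ j, r < j → s (Sum.inr j) = 0) ∧ s (Sum.inr r) ≤ e r ∧
    (s (Sum.inr r) = e r → s = Finsupp.single (Sum.inr r) (e r)))
  (h3 : ∀ r, coeff (Finsupp.single (Sum.inr r) (e r)) (G (Sum.inr r)) ≠ 0)

include hG h1 h2

theorem fix_below (N : ℕ) (r : Fin n) (y : Fin m ⊕ Fin n → κ) (hy : ∀ v, below r v → σ^[N] (y v) = y v) (k : ℕ) :
    ∀ v, below r v → σ^[N] ((evI G)^[k] y v) = (evI G)^[k] y v := by
  induction k with
  | zero => exact hy
  | succ k ih =>
    intro v hv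
    rw [Function.iterate_succ_apply']
    set y' := (evI G)^[k] y with hy'
    change σ^[N] (eval y' (G v)) = eval y' (G v)
    rw [← eval_iterI σ (G v) (hG v) N y']
    refine eval_congr _ _ _ fun s hs w hw => ih w ?_
    rcases v with i | j
    · rcases w with i' | j'
      · trivial
      · exact absurd (h1 i s hs j') hw
    · rcases w with i' | j'
      · trivial
      · have h4 : ¬ j < j' := fun h5 => hw ((h2 j s hs).1 j' h5)
        exact lt_of_le_of_lt (not_lt.1 h4) hv

include h3

/-- the polynomial in one variable -/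
theorem one_props (N : ℕ) (r : Fin n) (y : Fin m ⊕ Fin n → κ) (hy : ∀ v, below r v → σ^[N] (y v) = y v) :
    ∃ q : Polynomial κ, q.map (σ ^ N) = q ∧ q.natDegree = e r ∧ q.coeff (e r) ≠ 0 ∧
      q.eval (y (Sum.inr r)) = eval y (G (Sum.inr r)) ∧
      (Polynomial.derivative q).eval (y (Sum.inr r)) = eval y (pderiv (Sum.inr r) (G (Sum.inr r))) := by
  classical
  set g : Fin m ⊕ Fin n → Polynomial κ := fun v => if v = Sum.inr r then Polynomial.X else Polynomial.C (y v) with hg
  set g' : Fin m ⊕ Fin n → Polynomial κ := fun v => if v = Sum.inr r then Polynomial.X else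
    if below r v then Polynomial.C (y v) else 0 with hg'
  have hgr : g (Sum.inr r) = Polynomial.X := by rw [hg]; exact if_pos rfl
  have hgv : ∀ v, v ≠ Sum.inr r → g v = Polynomial.C (y v) := fun v hv => by rw [hg]; exact if_neg hv
  have hgg : one g (G (Sum.inr r)) = one g' (G (Sum.inr r)) := by
    refine one_congr g g' _ fun s hs v hv => ?_
    rw [hg, hg']
    by_cases h : v = Sum.inr r
    · simp only [h, if_true]
    · have hb : below r v := by
        rcases v with i | j
        · trivial
        · have h4 : ¬ r < j := fun h5 => hv ((h2 r s hs).1 j h5)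
          exact lt_of_le_of_ne (not_lt.1 h4) fun h5 => h (by rw [h5])
      simp only [h, if_false, hb, if_true]
  have hev : ∀ v, (g v).eval (y (Sum.inr r)) = y v := by
    intro v
    by_cases h : v = Sum.inr r
    · rw [h, hgr, Polynomial.eval_X]
    · rw [hgv v h, Polynomial.eval_C]
  have hpow : ∀ x, (σ ^ N) x = σ^[N] x := fun x => by rw [RingHom.coe_pow]
  obtain ⟨hd1, hd2⟩ := one_natDegree y (Sum.inr r) g hgr hgv (G (Sum.inr r)) (e r) (fun s hs => (h2 r s hs).2) (h3 r)
  refine ⟨one g (G (Sum.inr r)), ?_, hd1, hd2, ?_, ?_⟩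
  · rw [hgg]
    refine one_map (σ ^ N) g' (fun v => ?_) _ fun s => ?_
    · rw [hg']
      by_cases h : v = Sum.inr r
      · simp only [h, if_true, Polynomial.map_X]
      · by_cases hb : below r v
        · simp only [h, if_false, hb, if_true, Polynomial.map_C]
          rw [hpow, hy v hb]
        · simp only [h, if_false, hb, Polynomial.map_zero]
    · rw [hpow]
      exact Function.iterate_fixed (hG _ s) N
  · rw [one_eval, show (fun v => (g v).eval (y (Sum.inr r))) = y from funext hev]
  · rw [one_derivative g (Sum.inr r) hgr, one_eval, show (fun v => (g v).eval (y (Sum.inr r))) = y from funext hev]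
    · intro v hv
      rw [hgv v hv, Polynomial.derivative_C]

/-- the degrees along the orbit -/
theorem dvd_orbit (he : ∀ r, 1 ≤ e r) (N : ℕ) (r : Fin n) (y : Fin m ⊕ Fin n → κ)
    (hy : ∀ v, below r v → σ^[N] (y v) = y v) (l : ℕ) (hl : l.Prime) (hel : e r < l)
    (hd : l ∣ Function.minimalPeriod (σ^[N]) (y (Sum.inr r))) (k : ℕ) :
    l ∣ Function.minimalPeriod (σ^[N]) ((evI G)^[k] y (Sum.inr r)) := by
  induction k with
  | zero => exact hd
  | succ k ih =>
    rw [Function.iterate_succ_apply']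
    set y' := (evI G)^[k] y with hy'
    obtain ⟨q, hq1, hq2, hq3, hq4, -⟩ := one_props σ G hG e h1 h2 h3 N r y'
      (fix_below σ G hG e h1 h2 N r y hy k)
    change l ∣ Function.minimalPeriod (σ^[N]) (eval y' (G (Sum.inr r)))
    rw [← hq4, ← RingHom.coe_pow]
    refine period_eval (σ ^ N) q hq1 (hq2 ▸ he r) hl (hq2 ▸ hel) _ ?_
    rw [RingHom.coe_pow]
    exact ih

/-- no critical points along the orbit -/
theorem pderiv_orbit (he : ∀ r, 1 ≤ e r) (hek : ∀ r, (e r : κ) ≠ 0) (y : Fin m ⊕ Fin n → κ)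
    (hc : ∀ r, e r = 1 ∨ ∃ N l : ℕ, l.Prime ∧ e r < l ∧ (∀ v, below r v → σ^[N] (y v) = y v) ∧
      l ∣ Function.minimalPeriod (σ^[N]) (y (Sum.inr r))) (k : ℕ) (r : Fin n) :
    eval ((evI G)^[k] y) (pderiv (Sum.inr r) (G (Sum.inr r))) ≠ 0 := by
  rcases hc r with h | ⟨N, l, hl, hel, hy, hd⟩
  · obtain ⟨q, -, hq2, hq3, -, hq5⟩ := one_props σ G hG e h1 h2 h3 0 r ((evI G)^[k] y) fun v _ => rfl
    rw [← hq5]
    have h4 : q = Polynomial.C (q.coeff 1) * Polynomial.X + Polynomial.C (q.coeff 0) :=
      Polynomial.eq_X_add_C_of_natDegree_le_one (by omega)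
    rw [h4]
    rw [h] at hq3
    simpa using hq3
  · have hfix := fix_below σ G hG e h1 h2 N r y hy k
    obtain ⟨q, hq1, hq2, hq3, -, hq5⟩ := one_props σ G hG e h1 h2 h3 N r ((evI G)^[k] y) hfix
    have hdo := dvd_orbit σ G hG e h1 h2 h3 he N r y hy l hl hel hd k
    rw [← hq5]
    intro h0
    have h4 : Polynomial.derivative q ≠ 0 := by
      intro h5
      have h6 := congrArg (fun f => Polynomial.coeff f (e r - 1)) h5
      simp only [Polynomial.coeff_derivative, Polynomial.coeff_zero] at h6
      have h7 : e r - 1 + 1 = e r := Nat.sub_add_cancel (he r)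
      rw [h7] at h6
      have h8 : ((e r - 1 : ℕ) : κ) + 1 = (e r : κ) := by
        rw [← Nat.cast_succ, Nat.succ_eq_add_one, h7]
      rw [h8] at h6
      exact (mul_ne_zero hq3 (hek r)) h6
    have h5 : (Polynomial.derivative q).map (σ ^ N) = Polynomial.derivative q := by
      rw [← Polynomial.derivative_map, hq1]
    have h6 : (Polynomial.derivative q).natDegree < l := by
      have := Polynomial.natDegree_derivative_le q
      omega
    refine period_root (σ ^ N) _ h5 h4 h6 _ h0 ?_
    rw [RingHom.coe_pow]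
    exact hdo

end orbit

end

end Pool.Agent.Helper10.OS
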